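import Pool.Agent.H102R3.SKS

set_option autoImplicit false
open MeasureTheory ProbabilityTheory Set

namespace Pool.Agent.H672R3.SKI
open Pool.H102.SK

section gen
variable {κ V : Type} [Fintype κ] [Fintype V]

theorem integrable_coord (i : κ) : Integrable (fun x : κ → ℝ => x i) (G κ) := by
  have h : Integrable (fun y : ℝ => y) (gaussianReal 0 1) := by
    have := memLp_id_gaussianReal (μ := 0) (v := 1) 1
    have h2 : MemLp (fun y : ℝ => y) 1 (gaussianReal 0 1) := by
      have h3 : MemLp (id : ℝ → ℝ) 1 (gaussianReal 0 1) := by simpa using this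
      exact h3
    exact memLp_one_iff_integrable.1 h2
  exact (measurePreserving_eval (fun _ : κ => gaussianReal 0 1) i).integrable_comp_of_integrable h

theorem Zf_pos [Nonempty V] (a : V → κ → ℝ) (d : V → ℝ) (x : κ → ℝ) : 0 < Zf a d x :=
  Finset.sum_pos (fun _ _ => Real.exp_pos _) Finset.univ_nonempty

theorem continuous_Zf (a : V → κ → ℝ) (d : V → ℝ) : Continuous (Zf a d) := by
  unfold Zf; fun_prop

theorem measurable_Ff (a : V → κ → ℝ) (d : V → ℝ) : Measurable (Ff a d) :=
  Real.measurable_log.comp (continuous_Zf a d).measurable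

theorem measurable_pf (a : V → κ → ℝ) (d : V → ℝ) (v : V) : Measurable (fun x => pf a d x v) := by
  unfold pf
  exact Measurable.div (by fun_prop) (continuous_Zf a d).measurable

theorem pf_nonneg [Nonempty V] (a : V → κ → ℝ) (d : V → ℝ) (x : κ → ℝ) (v : V) :
    0 ≤ pf a d x v := div_nonneg (Real.exp_pos _).le (Zf_pos a d x).le

theorem sum_pf [Nonempty V] (a : V → κ → ℝ) (d : V → ℝ) (x : κ → ℝ) :
    ∑ v, pf a d x v = 1 := by
  unfold pf
  rw [← Finset.sum_div]
  exact div_self (Zf_pos a d x).ne'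

theorem pf_le_one [Nonempty V] (a : V → κ → ℝ) (d : V → ℝ) (x : κ → ℝ) (v : V) :
    pf a d x v ≤ 1 := by
  rw [← sum_pf a d x]
  exact Finset.single_le_sum (fun v _ => pf_nonneg a d x v) (Finset.mem_univ v)

theorem abs_Ff_le [Nonempty V] (a : V → κ → ℝ) (d : V → ℝ) (x : κ → ℝ) :
    |Ff a d x| ≤ Real.log (Fintype.card V) + ∑ v, |d v + ∑ i, a v i * x i| := by
  set M := ∑ v, |d v + ∑ i, a v i * x i| with hM
  have hle : ∀ v, |d v + ∑ i, a v i * x i| ≤ M := fun v =>
    Finset.single_le_sum (f := fun v => |d v + ∑ i, a v i * x i|) (fun v _ => abs_nonneg _)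
      (Finset.mem_univ v)
  have hc : (1 : ℝ) ≤ Fintype.card V := by exact_mod_cast Fintype.card_pos
  have hlog : 0 ≤ Real.log (Fintype.card V) := Real.log_nonneg hc
  rw [abs_le]
  constructor
  · obtain ⟨v0⟩ := (inferInstance : Nonempty V)
    have h1 : Real.exp (d v0 + ∑ i, a v0 i * x i) ≤ Zf a d x :=
      Finset.single_le_sum (f := fun v => Real.exp (d v + ∑ i, a v i * x i))
        (fun v _ => (Real.exp_pos _).le) (Finset.mem_univ v0)
    have h2 : d v0 + ∑ i, a v0 i * x i ≤ Ff a d x := (Real.le_log_iff_exp_le (Zf_pos a d x)).2 h1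
    have h3 := (abs_le.1 (hle v0)).1
    linarith
  · have h1 : Zf a d x ≤ Fintype.card V * Real.exp M := by
      unfold Zf
      calc ∑ v, Real.exp (d v + ∑ i, a v i * x i) ≤ ∑ _v : V, Real.exp M :=
            Finset.sum_le_sum fun v _ => Real.exp_le_exp.2 ((le_abs_self _).trans (hle v))
        _ = Fintype.card V * Real.exp M := by simp
    have h2 : Ff a d x ≤ Real.log (Fintype.card V * Real.exp M) :=
      Real.log_le_log (Zf_pos a d x) h1
    rwa [Real.log_mul (by positivity) (Real.exp_pos _).ne', Real.log_exp] at h2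

theorem integrable_Ff [Nonempty V] (a : V → κ → ℝ) (d : V → ℝ) : Integrable (Ff a d) (G κ) := by
  have hb : Integrable (fun x : κ → ℝ => Real.log (Fintype.card V) +
      ∑ v, |d v + ∑ i, a v i * x i|) (G κ) := by
    apply (integrable_const _).add
    apply integrable_finsetSum
    intro v _
    apply Integrable.abs
    apply (integrable_const _).add
    apply integrable_finsetSum
    intro i _
    exact (integrable_coord i).const_mul _
  exact hb.mono' (measurable_Ff a d).aestronglyMeasurable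
    (Filter.Eventually.of_forall fun x => abs_Ff_le a d x)

theorem mp_sign (e : κ → ℝ) (he : ∀ k, e k ^ 2 = 1) :
    MeasurePreserving (fun u : κ → ℝ => fun k => e k * u k) (G κ) (G κ) := by
  apply measurePreserving_pi
  intro k
  refine ⟨by fun_prop, ?_⟩
  have h := gaussianReal_map_const_mul (μ := 0) (v := 1) (e k)
  rw [h]
  congr 1
  · simp
  · ext
    simp [he k]

end gen

/-- the constant -/
noncomputable def KC : ℝ := ∫ y, Real.exp (y ^ 2 / 4) ∂(gaussianReal 0 1)

theorem integrable_exp_sq : Integrable (fun y : ℝ => Real.exp (y ^ 2 / 4)) (gaussianReal 0 1) := by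
  rw [gaussianReal_of_var_ne_zero 0 (by norm_num : (1 : NNReal) ≠ 0)]
  rw [integrable_withDensity_iff (measurable_gaussianPDF 0 1)
    (Filter.Eventually.of_forall fun x => gaussianPDF_lt_top)]
  have h : Integrable (fun y : ℝ => (Real.sqrt (2 * Real.pi))⁻¹ * Real.exp (-(1 / 4) * y ^ 2)) :=
    (integrable_exp_neg_mul_sq (by norm_num)).const_mul _
  refine h.congr (Filter.Eventually.of_forall fun y => ?_)
  have e0 : (gaussianPDF 0 1 y).toReal = gaussianPDFReal 0 1 y := by
    rw [gaussianPDF, ENNReal.toReal_ofReal (gaussianPDFReal_nonneg _ _ _)]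
  simp only [e0]
  simp only [gaussianPDFReal, NNReal.coe_one, mul_one, sub_zero]
  rw [mul_comm (Real.exp (y ^ 2 / 4)), mul_assoc, ← Real.exp_add]
  congr 2
  ring

theorem sq_sgn (b : Fin 2) : ((-1 : ℝ) ^ b.val) ^ 2 = 1 := by
  rw [← pow_mul, mul_comm, pow_mul]; simp

theorem sgn_add (b c : Fin 2) : (-1 : ℝ) ^ (b + c : Fin 2).val = (-1) ^ b.val * (-1) ^ c.val := by
  fin_cases b <;> fin_cases c <;> simp

theorem S_le (N : ℕ) (hN : 0 < N) (s : Fin N → Fin 2) :
    ∑ τ : Fin N → Fin 2, Real.exp (1 / 4 * Q N s τ) ≤ 2 ^ N * KC := by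
  have hN' : (0 : ℝ) < N := by exact_mod_cast hN
  set c : ℝ := (Real.sqrt (2 * N))⁻¹ with hc
  have hc2 : c ^ 2 = 1 / (2 * N) := by
    rw [hc, inv_pow, Real.sq_sqrt (by positivity), one_div]
  let u : (Fin N → Fin 2) → ℝ := fun τ => ∑ i, (-1 : ℝ) ^ (s i).val * (-1 : ℝ) ^ (τ i).val
  have h1 : ∀ τ, Real.exp (1 / 4 * Q N s τ) = ∫ y, Real.exp (c * u τ * y) ∂(gaussianReal 0 1) := by
    intro τ
    have h := mgf_id_gaussianReal (μ := 0) (v := 1)
    have h' := congrFun h (c * u τ)
    simp only [mgf, id] at h'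
    rw [h']
    congr 1
    simp only [Q, NNReal.coe_one]
    have : (c * u τ) ^ 2 = (u τ) ^ 2 / (2 * N) := by rw [mul_pow, hc2]; ring
    rw [this]
    simp only [u]
    field_simp
    ring
  have hint : ∀ τ, Integrable (fun y => Real.exp (c * u τ * y)) (gaussianReal 0 1) := fun τ =>
    integrable_exp_mul_gaussianReal (c * u τ)
  have h2 : ∑ τ : Fin N → Fin 2, Real.exp (1 / 4 * Q N s τ) =
      ∫ y, ∑ τ : Fin N → Fin 2, Real.exp (c * u τ * y) ∂(gaussianReal 0 1) := by
    rw [integral_finsetSum _ fun τ _ => hint τ]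
    exact Finset.sum_congr rfl fun τ _ => h1 τ
  have h3 : ∀ y : ℝ, ∑ τ : Fin N → Fin 2, Real.exp (c * u τ * y) ≤ 2 ^ N * Real.exp (y ^ 2 / 4) := by
    intro y
    have e1 : ∀ τ : Fin N → Fin 2, Real.exp (c * u τ * y) =
        ∏ i, Real.exp (c * y * ((-1 : ℝ) ^ (s i).val * (-1 : ℝ) ^ (τ i).val)) := by
      intro τ
      rw [← Real.exp_sum, ← Finset.mul_sum]
      congr 1
      simp only [u]; ring
    rw [Finset.sum_congr rfl fun τ _ => e1 τ]
    have e2 := Finset.prod_univ_sum (fun _ : Fin N => (Finset.univ : Finset (Fin 2)))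
      (fun i b => Real.exp (c * y * ((-1 : ℝ) ^ (s i).val * (-1 : ℝ) ^ b.val)))
    rw [Fintype.piFinset_univ] at e2
    rw [← e2]
    have e3 : ∀ i : Fin N, ∑ b : Fin 2, Real.exp (c * y * ((-1 : ℝ) ^ (s i).val * (-1 : ℝ) ^ b.val)) ≤
        2 * Real.exp (y ^ 2 / (4 * N)) := by
      intro i
      have hcosh := Real.cosh_le_exp_half_sq (c * y * (-1 : ℝ) ^ (s i).val)
      rw [Real.cosh_eq] at hcosh
      have e4 : (c * y * (-1 : ℝ) ^ (s i).val) ^ 2 / 2 = y ^ 2 / (4 * N) := by
        rw [mul_pow, mul_pow, sq_sgn, hc2]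
        field_simp
        ring
      rw [e4] at hcosh
      rw [Fin.sum_univ_two]
      simp only [Fin.val_zero, pow_zero, mul_one, Fin.val_one, pow_one]
      have e5 : c * y * ((-1 : ℝ) ^ (s i).val * -1) = -(c * y * (-1 : ℝ) ^ (s i).val) := by ring
      rw [e5]
      linarith
    calc ∏ i : Fin N, ∑ b : Fin 2, Real.exp (c * y * ((-1 : ℝ) ^ (s i).val * (-1 : ℝ) ^ b.val))
        ≤ ∏ _i : Fin N, 2 * Real.exp (y ^ 2 / (4 * N)) :=
          Finset.prod_le_prod (fun i _ => Finset.sum_nonneg fun b _ => (Real.exp_pos _).le)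
            fun i _ => e3 i
      _ = 2 ^ N * Real.exp (y ^ 2 / 4) := by
          rw [Finset.prod_const, Finset.card_univ, Fintype.card_fin, mul_pow, ← Real.exp_nat_mul]
          congr 2
          field_simp
  rw [h2, KC, ← integral_const_mul]
  exact integral_mono (integrable_finsetSum _ fun τ _ => hint τ)
    (integrable_exp_sq.const_mul _) h3

theorem tIndep : TIndep := by
  refine ⟨KC, integral_nonneg fun y => (Real.exp_pos _).le, ?_⟩
  intro β N hN
  set a := skA β N with ha
  let z0 : (Fin N → Fin 2) → ℝ := fun _ => 0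
  let xl : ((Fin N × Fin N) ⊕ (Fin N × Fin N) → ℝ) → (Fin N × Fin N) → ℝ := fun u k => u (Sum.inl k)
  let xr : ((Fin N × Fin N) ⊕ (Fin N × Fin N) → ℝ) → (Fin N × Fin N) → ℝ := fun u k => u (Sum.inr k)
  have hxl : MeasurePreserving xl (G _) (G _) := mp_comp Sum.inl Sum.inl_injective
  have hxr : MeasurePreserving xr (G _) (G _) := mp_comp Sum.inr Sum.inr_injective
  let w : (Fin N → Fin 2) → (Fin N → Fin 2) → ℝ := fun s t => Real.exp (1 / 4 * Q N s t)
  let W : ((Fin N × Fin N) ⊕ (Fin N × Fin N) → ℝ) → ℝ := fun u =>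
    ∑ s, ∑ t, w s t * (pf a z0 (xl u) s * pf a z0 (xr u) t)
  have hwpos : ∀ s t, 0 < w s t := fun s t => Real.exp_pos _
  -- factorisation
  have hfac : ∀ u, Zf (cp a 0) (fun v => (1 / 4) * Q N v.1 v.2) u =
      Zf a z0 (xl u) * Zf a z0 (xr u) * W u := by
    intro u
    have hl := (Zf_pos a z0 (xl u)).ne'
    have hr := (Zf_pos a z0 (xr u)).ne'
    simp only [W, Finset.mul_sum]
    rw [Zf, Fintype.sum_prod_type]
    refine Finset.sum_congr rfl fun s _ => Finset.sum_congr rfl fun t _ => ?_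
    simp only [pf]
    have e1 : Zf a z0 (xl u) * Zf a z0 (xr u) * (w s t * (Real.exp (z0 s + ∑ i, a s i * xl u i) /
        Zf a z0 (xl u) * (Real.exp (z0 t + ∑ i, a t i * xr u i) / Zf a z0 (xr u)))) =
        w s t * (Real.exp (z0 s + ∑ i, a s i * xl u i) * Real.exp (z0 t + ∑ i, a t i * xr u i)) := by
      field_simp
    rw [e1]
    simp only [w]
    rw [← Real.exp_add, ← Real.exp_add]
    congr 1
    simp only [cp, Fintype.sum_sum_type, Sum.elim_inl, Sum.elim_inr, Real.sin_zero, Real.cos_zero,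
      zero_mul, add_zero, one_mul, z0, zero_add, xl, xr]
  have hWpos : ∀ u, 0 < W u := by
    intro u
    have h1 := hfac u
    have h2 := Zf_pos (cp a 0) (fun v => (1 / 4) * Q N v.1 v.2) u
    rw [h1] at h2
    exact (mul_pos_iff_of_pos_left (mul_pos (Zf_pos a z0 (xl u)) (Zf_pos a z0 (xr u)))).1 h2
  have hpt : ∀ u, Ff (cp a 0) (fun v => (1 / 4) * Q N v.1 v.2) u ≤
      Ff a z0 (xl u) + Ff a z0 (xr u) + W u := by
    intro u
    unfold Ff
    rw [hfac u, Real.log_mul (mul_ne_zero (Zf_pos a z0 (xl u)).ne' (Zf_pos a z0 (xr u)).ne')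
      (hWpos u).ne', Real.log_mul (Zf_pos a z0 (xl u)).ne' (Zf_pos a z0 (xr u)).ne']
    have := Real.log_le_sub_one_of_pos (hWpos u)
    linarith
  -- integrability
  have hWm : Measurable W := by
    apply Finset.measurable_sum
    intro s _
    apply Finset.measurable_sum
    intro t _
    exact measurable_const.mul (((measurable_pf a z0 s).comp hxl.measurable).mul
      ((measurable_pf a z0 t).comp hxr.measurable))
  have hWb : ∀ u, W u ≤ ∑ s, ∑ t, w s t := by
    intro u
    refine Finset.sum_le_sum fun s _ => Finset.sum_le_sum fun t _ => ?_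
    have h1 : pf a z0 (xl u) s * pf a z0 (xr u) t ≤ 1 :=
      mul_le_one₀ (pf_le_one _ _ _ _) (pf_nonneg _ _ _ _) (pf_le_one _ _ _ _)
    calc w s t * (pf a z0 (xl u) s * pf a z0 (xr u) t) ≤ w s t * 1 :=
          mul_le_mul_of_nonneg_left h1 (hwpos s t).le
      _ = w s t := mul_one _
  have hWi : Integrable W (G ((Fin N × Fin N) ⊕ (Fin N × Fin N))) :=
    Integrable.of_bound hWm.aestronglyMeasurable (∑ s, ∑ t, w s t)
      (Filter.Eventually.of_forall fun u => by
        rw [Real.norm_eq_abs, abs_of_pos (hWpos u)]; exact hWb u)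
  have hFi : Integrable (Ff a z0) (G (Fin N × Fin N)) := integrable_Ff a z0
  have hFl : Integrable (fun u => Ff a z0 (xl u)) (G ((Fin N × Fin N) ⊕ (Fin N × Fin N))) :=
    hxl.integrable_comp_of_integrable hFi
  have hFr : Integrable (fun u => Ff a z0 (xr u)) (G ((Fin N × Fin N) ⊕ (Fin N × Fin N))) :=
    hxr.integrable_comp_of_integrable hFi
  have hIl : ∫ u, Ff a z0 (xl u) ∂(G ((Fin N × Fin N) ⊕ (Fin N × Fin N))) = EF β N := by
    have h := integral_map (μ := G ((Fin N × Fin N) ⊕ (Fin N × Fin N))) hxl.measurable.aemeasurable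
      (f := Ff a z0) (measurable_Ff a z0).aestronglyMeasurable
    rw [hxl.map_eq] at h
    exact h.symm
  have hIr : ∫ u, Ff a z0 (xr u) ∂(G ((Fin N × Fin N) ⊕ (Fin N × Fin N))) = EF β N := by
    have h := integral_map (μ := G ((Fin N × Fin N) ⊕ (Fin N × Fin N))) hxr.measurable.aemeasurable
      (f := Ff a z0) (measurable_Ff a z0).aestronglyMeasurable
    rw [hxr.map_eq] at h
    exact h.symm
  -- the gauge transformation
  let T : (Fin N → Fin 2) → ((Fin N × Fin N) ⊕ (Fin N × Fin N) → ℝ) →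
      ((Fin N × Fin N) ⊕ (Fin N × Fin N) → ℝ) := fun η u k =>
    (Sum.elim (fun _ => (1 : ℝ)) (fun p : Fin N × Fin N =>
      (-1 : ℝ) ^ (η p.1).val * (-1 : ℝ) ^ (η p.2).val) k) * u k
  have hT : ∀ η, MeasurePreserving (T η) (G _) (G _) := by
    intro η
    apply mp_sign
    rintro (k | k)
    · simp
    · simp only [Sum.elim_inr, mul_pow, sq_sgn, mul_one]
  have hlin : ∀ (η t : Fin N → Fin 2) (u : (Fin N × Fin N) ⊕ (Fin N × Fin N) → ℝ),
      ∑ i, a t i * xr (T η u) i = ∑ i, a (t + η) i * xr u i := by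
    intro η t u
    refine Finset.sum_congr rfl fun p _ => ?_
    simp only [xr, T, Sum.elim_inr, ha, skA, Pi.add_apply, sgn_add]
    split_ifs <;> ring
  have hZr : ∀ η u, Zf a z0 (xr (T η u)) = Zf a z0 (xr u) := by
    intro η u
    unfold Zf
    rw [← Equiv.sum_comp (Equiv.addRight η)
      (fun t => Real.exp (z0 t + ∑ i, a t i * xr u i))]
    refine Finset.sum_congr rfl fun t _ => ?_
    rw [hlin η t u]
    rfl
  have hpr : ∀ η u t, pf a z0 (xr (T η u)) t = pf a z0 (xr u) (t + η) := by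
    intro η u t
    unfold pf
    rw [hZr, hlin η t u]
  have hxlT : ∀ η u, xl (T η u) = xl u := by
    intro η u
    funext k
    simp [xl, T]
  have hWT : ∀ η u, W (T η u) = ∑ s, ∑ t, w s (t - η) * (pf a z0 (xl u) s * pf a z0 (xr u) t) := by
    intro η u
    refine Finset.sum_congr rfl fun s _ => ?_
    rw [← Equiv.sum_comp (Equiv.addRight η)
      (fun t => w s (t - η) * (pf a z0 (xl u) s * pf a z0 (xr u) t))]
    refine Finset.sum_congr rfl fun t _ => ?_
    rw [hpr, hxlT]
    simp only [Equiv.coe_addRight, add_sub_cancel_right]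
  have hsum : ∀ u, ∑ η, W (T η u) ≤ 2 ^ N * KC := by
    intro u
    simp only [hWT]
    rw [Finset.sum_comm]
    have h1 : ∀ s, ∑ η, ∑ t, w s (t - η) * (pf a z0 (xl u) s * pf a z0 (xr u) t) ≤
        2 ^ N * KC * pf a z0 (xl u) s := by
      intro s
      rw [Finset.sum_comm]
      have h2 : ∀ t, ∑ η, w s (t - η) * (pf a z0 (xl u) s * pf a z0 (xr u) t) ≤
          2 ^ N * KC * (pf a z0 (xl u) s * pf a z0 (xr u) t) := by
        intro t
        rw [← Finset.sum_mul]
        apply mul_le_mul_of_nonneg_right _ (mul_nonneg (pf_nonneg _ _ _ _) (pf_nonneg _ _ _ _))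
        have h3 : ∑ η, w s (t - η) = ∑ η, w s η :=
          Equiv.sum_comp (Equiv.subLeft t) (fun η => w s η)
        rw [h3]
        exact S_le N hN s
      refine (Finset.sum_le_sum fun t _ => h2 t).trans (le_of_eq ?_)
      rw [← Finset.mul_sum, ← Finset.mul_sum, sum_pf, mul_one]
    refine (Finset.sum_le_sum fun s _ => h1 s).trans (le_of_eq ?_)
    rw [← Finset.mul_sum, sum_pf, mul_one]
  have hEW : ∫ u, W u ∂(G ((Fin N × Fin N) ⊕ (Fin N × Fin N))) ≤ KC := by
    have h1 : ∀ η, ∫ u, W (T η u) ∂(G ((Fin N × Fin N) ⊕ (Fin N × Fin N))) =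
        ∫ u, W u ∂(G ((Fin N × Fin N) ⊕ (Fin N × Fin N))) := by
      intro η
      have h := integral_map (μ := G ((Fin N × Fin N) ⊕ (Fin N × Fin N)))
        (hT η).measurable.aemeasurable (f := W) hWm.aestronglyMeasurable
      rw [(hT η).map_eq] at h
      exact h.symm
    have hi : ∀ η, Integrable (fun u => W (T η u)) (G ((Fin N × Fin N) ⊕ (Fin N × Fin N))) :=
      fun η => (hT η).integrable_comp_of_integrable hWi
    have h2 : ∑ η : Fin N → Fin 2, ∫ u, W (T η u) ∂(G ((Fin N × Fin N) ⊕ (Fin N × Fin N))) ≤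
        2 ^ N * KC := by
      rw [← integral_finsetSum _ fun η _ => hi η]
      refine (integral_mono (integrable_finsetSum _ fun η _ => hi η) (integrable_const (2 ^ N * KC))
        hsum).trans (le_of_eq ?_)
      simp
    simp only [h1, Finset.sum_const, Finset.card_univ, nsmul_eq_mul] at h2
    have h3 : ((Fintype.card (Fin N → Fin 2) : ℕ) : ℝ) = 2 ^ N := by simp
    rw [h3] at h2
    exact le_of_mul_le_mul_left h2 (by positivity)
  calc ∫ x, Ff (cp a 0) (fun v => (1 / 4) * Q N v.1 v.2) x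
        ∂(G ((Fin N × Fin N) ⊕ (Fin N × Fin N)))
      ≤ ∫ u, (Ff a z0 (xl u) + Ff a z0 (xr u) + W u)
        ∂(G ((Fin N × Fin N) ⊕ (Fin N × Fin N))) :=
        integral_mono (integrable_Ff _ _) ((hFl.add hFr).add hWi) hpt
    _ = EF β N + EF β N + ∫ u, W u ∂(G ((Fin N × Fin N) ⊕ (Fin N × Fin N))) := by
        have e1 := integral_add (hFl.add hFr) hWi
        have e2 := integral_add hFl hFr
        simp only [Pi.add_apply] at e1
        rw [e1, e2, hIl, hIr]
    _ ≤ 2 * EF β N + KC := by linarith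

end Pool.Agent.H672R3.SKI
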